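import Pool.Agent.W5h84.NK.Log
import Pool.Agent.W5h84.NK.Kn

/-!
# A logarithmic lower bound for `k(n)`

For a finite graph `G` let `mu G` be its vertex connectivity. An `(n, k)`-graph is a graph `G` with
`mu (G - X) = n - |X|` for all sets `X` of at most `k` vertices (`IsNK G n k`), and `k(n)` is the
least `k` with `1 ≤ k ≤ n` such that every non-complete `(n, k)`-graph has diameter two (`kn n`).

Kriesell (Graphs and Combinatorics 22, 2006) constructed for every `l` an `(n, l)`-graph of diameter
three, for some `n = n(l)`. Here we give a bound for all `n`.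

Theorem. If `16 ^ r ≤ 3 n` then `k(n) ≥ 2 r - 1`. So `k(n) ≥ (1 / 2) log_2 n - 3` for all `n ≥ 6`,
and `k(n)` tends to infinity.

Proof. (1) Let `Q` be a `d`-connected graph with at least `2 d + 2 + t` vertices such that any `k`
vertices are in a separating set of `d` vertices. Replace each vertex `i` of `Q` by two adjacent
vertices `(i, 0)` and `(i, 1)`, where `(i, a)` and `(j, b)` are adjacent if `i` and `j` are, and add
two vertices `u_0`, `u_1`, where `u_a` is adjacent to all `(i, a)`, and `t` vertices adjacent
to all `(i, a)`. This is a `(2 d + 2 + t, k)`-graph of diameter three (the distance of `u_0` and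
`u_1`), if any two vertices of `Q` have a common neighbour.

(2) Let `Q` have as vertices the nonzero vectors of `𝔽₂^{2r}`, each with `b` labels, where different
vertices are adjacent if their vectors are orthogonal for a nondegenerate alternating form. Then `Q`
has `b (4 ^ r - 1)` vertices. The vertices with a vector orthogonal to and different from `m`
separate the vertices with the vector `m` from the rest, and they are `d = b (4 ^ r / 2 - 2)` in
number. If all vectors of a set `P` have product one with all vectors of a set `P'` then
`|P| + |P'| ≤ 4 ^ r / 2 + 1`, thus `Q` is `d`-connected. Any `2 r - 2` vectors are orthogonal to a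
further nonzero vector. So (1) applies with `k = 2 r - 2` and `t + 2 ≤ 3 b`. These values
`n = b (4 ^ r - 4) + 2 + t` are all integers `n ≥ 16 ^ r / 3`.
-/

set_option autoImplicit false

namespace Pool.Agent.Results.MP_6b834a_co.LogLowerBound

open Pool.Agent.W5h84.NK

/-- `k(n) ≥ 2 r - 1` for all `n ≥ 16 ^ r / 3`. -/
theorem result (r n : ℕ) (hn : 16 ^ r ≤ 3 * n) : 2 * r - 1 ≤ kn n := by
  have hn1 : 1 ≤ n := by
    have : 1 ≤ 16 ^ r := Nat.one_le_pow _ _ (by norm_num)
    omega
  rcases r with _ | _ | r
  · exact Nat.zero_le _
  · exact (good_kn hn1).1
  · have := lt_kn hn1 (exists_log (r + 2) n (by omega) hn)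
    omega

end Pool.Agent.Results.MP_6b834a_co.LogLowerBound
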